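import Pool.Agent.Helper72.LSr.C0

/-!
# LSR piece LR-Cd: orderings and subgraphs with a prescribed number of edges
-/

namespace Pool.Agent.Helper26.LSr

open Finset
open scoped Classical
open Pool.Agent.Helper72.LSr

variable {V : Type} (G : SimpleGraph V)

/-- an ordering compatible with an integer function -/
theorem exists_order (R : Finset V) (D : V → ℤ) :
    ∃ f : V → ℕ, Set.InjOn f R ∧ ∀ x ∈ R, ∀ u ∈ R, f x < f u → D x ≤ D u := by
  induction R using Finset.induction_on_max_value D with
  | empty => exact ⟨fun _ => 0, by simp, by simp⟩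
  | insert a s ha hmax ih =>
    obtain ⟨f, hinj, hord⟩ := ih
    have hlt : ∀ x ∈ s, f x < s.sup f + 1 := fun x hx => Nat.lt_succ_of_le (le_sup hx)
    refine ⟨fun x => if x = a then s.sup f + 1 else f x, ?_, ?_⟩
    · intro x hx y hy hxy
      rw [mem_coe, mem_insert] at hx hy
      by_cases hxa : x = a
      · by_cases hya : y = a
        · rw [hxa, hya]
        · have hys : y ∈ s := hy.resolve_left hya
          simp only [hxa, hya, if_true, if_false] at hxy
          exact absurd hxy (hlt y hys).ne'
      · have hxs : x ∈ s := hx.resolve_left hxa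
        by_cases hya : y = a
        · simp only [hxa, hya, if_true, if_false] at hxy
          exact absurd hxy (hlt x hxs).ne
        · have hys : y ∈ s := hy.resolve_left hya
          simp only [hxa, hya, if_false] at hxy
          exact hinj hxs hys hxy
    · intro x hx u hu hxu
      rw [mem_insert] at hx hu
      by_cases hua : u = a
      · by_cases hxa : x = a
        · rw [hua, hxa]
        · rw [hua]
          exact hmax x (hx.resolve_left hxa)
      · have hus : u ∈ s := hu.resolve_left hua
        by_cases hxa : x = a
        · simp only [hxa, hua, if_true, if_false] at hxu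
          exact absurd hxu (not_lt.2 (hlt u hus).le)
        · simp only [hxa, hua, if_false] at hxu
          exact hord x (hx.resolve_left hxa) u hus hxu

/-- an ordering with a prescribed last element -/
theorem exists_order_last (R : Finset V) (y : V) (hy : y ∈ R) :
    ∃ f : V → ℕ, Set.InjOn f R ∧ ∀ x ∈ R, x ≠ y → f x < f y := by
  obtain ⟨f, hinj, hord⟩ := exists_order R (fun x => if x = y then 1 else 0)
  refine ⟨f, hinj, fun x hx hxy => ?_⟩
  rcases lt_trichotomy (f x) (f y) with h | h | h
  · exact h
  · exact absurd (hinj hx hy h) hxy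
  · have h1 := hord y hy x hx h
    simp [hxy] at h1

/-- deleting edges one by one: every smaller number of edges is attained by a subgraph -/
theorem exists_subgraph (S : Finset V) (m : ℤ) (h0 : 0 ≤ m) (hm : m ≤ K G S 2) :
    ∃ G' : SimpleGraph V, K G' S 2 = m ∧ ∀ r, K G' S r ≤ K G S r := by
  obtain ⟨n, hn⟩ : ∃ n : ℕ, K G S 2 - m = n := ⟨(K G S 2 - m).toNat, by omega⟩
  clear hm
  induction n generalizing G with
  | zero => exact ⟨G, by push_cast at hn; omega, fun r => le_refl _⟩
  | succ n ih =>
    have hpos : 0 < K G S 2 := by push_cast at hn; omega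
    obtain ⟨t, ht⟩ : ((S.powersetCard 2).filter
        (fun t : Finset V => G.IsClique (t : Set V))).Nonempty := by
      rw [← card_pos]
      unfold K at hpos
      exact_mod_cast hpos
    rw [mem_filter, mem_powersetCard] at ht
    obtain ⟨⟨htS, ht2⟩, htc⟩ := ht
    obtain ⟨x, y, hxy, rfl⟩ := card_eq_two.1 ht2
    have hadj : G.Adj x y := htc (by simp) (by simp) hxy
    have hxS : x ∈ S := htS (by simp)
    have hyS : y ∈ S := htS (by simp)
    have hle : ∀ r, K (dst G x {y}) S r ≤ K G S r := by
      intro r
      cases r with
      | zero => rw [K_zero, K_zero]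
      | succ r =>
        rw [K_dst G hxS]
        have := K_mono G (sdiff_subset : nb G S x \ {y} ⊆ nb G S x) r
        linarith
    have hy : y ∈ nb G S x := by rw [mem_nb]; exact ⟨hyS, hadj⟩
    have hcard : ((nb G S x \ {y}).card : ℤ) = (nb G S x).card - 1 := by
      rw [sdiff_singleton_eq_erase, card_erase_of_mem hy]
      have : 0 < (nb G S x).card := card_pos.2 ⟨y, hy⟩
      omega
    have h2 : K (dst G x {y}) S 2 = K G S 2 - 1 := by
      rw [show (2 : ℕ) = 1 + 1 from rfl, K_dst G hxS, K_one, K_one, hcard]
      ring
    obtain ⟨G', h3, h4⟩ := ih (dst G x {y}) (by rw [h2]; push_cast at hn; omega)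
    exact ⟨G', h3, fun r => (h4 r).trans (hle r)⟩

end Pool.Agent.Helper26.LSr
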