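import Pool.Agent.Helper72.LSr.S6c

/-!
# Section 6: LR-M4 (all abbreviations written out)
-/

namespace Pool.Agent.Helper26.LSr

open Finset
open scoped Classical
open Pool.Agent.Helper72.LSr

variable {V : Type} {j : ℕ} {G : SimpleGraph V} {S : Finset V} {k A B : ℕ} {w : V}

/-- `C3` and the slack, for some ordering `f` -/
theorem ml_C3 (h : ML V j G S k A B w) (hm : 1 ≤ K G (NH G S w) 2) :
    ∃ f : V → ℕ, Set.InjOn f (NH G S w) ∧
      k * (Dv k (A + 1) B G S w * es k A B (j + 1) *
          (∑ u ∈ NH G S w, sq k (A + 1) B G S u (Qf G (NH G S w) f u))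
        + es k A B (j + 1) * ∑ u ∈ NH G S w, (Yv k (A + 1) B G S w * Dv k (A + 1) B G S u
          - Dv k (A + 1) B G S w * Yv k (A + 1) B G S u))
      ≤ (k + 1) * (es k A B (j + 1) * Yv k (A + 1) B G S w * (Dv k (A + 1) B G S w
          - Yv k (A + 1) B G S w - rS k (A + 1) B G S - K G (NH G S w) 2)
        - Dv k (A + 1) B G S w * ((- Phi k (A + 1) B (j + 2) G S) + Phi k A B (j + 2) G (nb G S w)
          + Phi k A B (j + 1) G (nb G S w))) := by
  obtain ⟨f, hf, hfD⟩ := exists_order (NH G S w) (fun x => Dv k (A + 1) B G S x)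
  refine ⟨f, hf, ?_⟩
  have hfar := ml_far h hm f hf hfD
  have h1 := sum_le_sum hfar
  have h2 := id_one' h.hw k A B j f hf
  rw [← mul_sum, ← mul_sum, sum_add_distrib, sum_add_distrib, ← mul_sum, ← mul_sum, ← mul_sum]
    at h1
  linear_combination h1 + (k + 1 : ℤ) * h2

private theorem slack_nonneg (h : ML V j G S k A B w) :
    0 ≤ ∑ u ∈ NH G S w, (Yv k (A + 1) B G S w * Dv k (A + 1) B G S u
          - Dv k (A + 1) B G S w * Yv k (A + 1) B G S u) := by
  apply sum_nonneg
  intro u hu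
  have h1 := h.hmax u (by
    unfold NH at hu
    exact (mem_filter.1 hu).1)
  linarith

private theorem sum_cv_nonneg (h : ML V j G S k A B w) (f : V → ℕ) {u : V}
    (hu : u ∈ NH G S w) : ∀ x ∈ Qf G (NH G S w) f u, 0 ≤ cv k (A + 1) B G S u x := by
  intro x hx
  unfold Qf at hx
  rw [mem_filter] at hx
  have h1 : x ∈ S := by
    have := hx.1
    unfold NH at this
    exact (mem_filter.1 this).1
  have h2 : u ∈ S := by
    unfold NH at hu
    exact (mem_filter.1 hu).1
  exact h.hc u h2 x h1 hx.2.1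

private theorem K_three_le (h : ML V j G S k A B w) (f : V → ℕ)
    (hf : Set.InjOn f (NH G S w)) :
    K G (NH G S w) 3 ≤ ∑ u ∈ NH G S w, sq k (A + 1) B G S u (Qf G (NH G S w) f u) := by
  rw [show (3 : ℕ) = 2 + 1 from rfl, K_last G (NH G S w) f hf 2]
  apply sum_le_sum
  intro u hu
  unfold Pool.Agent.Helper72.LSr.sq
  have := sum_nonneg (sum_cv_nonneg h f hu)
  linarith

/-- (EB') -/
theorem ml_EB (h : ML V j G S k A B w) (hm : 1 ≤ K G (NH G S w) 2) :
    k * Dv k (A + 1) B G S w * es k A B (j + 1) *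
        (∑ y ∈ NH G S w, sq k (A + 1) B G S w (Qs G S w y))
      ≤ k * es k A B (j + 1) * (Dv k (A + 1) B G S w - MS k (A + 1) B S) * Yv k (A + 1) B G S w
          * Dv k (A + 1) B G S w
        + (2 * k + 3) * es k A B (j + 1) * Yv k (A + 1) B G S w * (Dv k (A + 1) B G S w
          - Yv k (A + 1) B G S w - rS k (A + 1) B G S - K G (NH G S w) 2)
        - (3 * k + 3) * Dv k (A + 1) B G S w * ((- Phi k (A + 1) B (j + 2) G S)
          + Phi k A B (j + 2) G (nb G S w) + Phi k A B (j + 1) G (nb G S w)) := by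
  obtain ⟨f, hf, hC⟩ := ml_C3 h hm
  have hG := id_G3 G S h.hw k (A + 1) B f hf
  have hE2 := id_E2 G S h.hw k (A + 1) B
  have hSL := slack_nonneg h
  have ht := K_three_le h f hf
  have hl := es_nonneg k A B (j + 1)
  have hD : 1 ≤ Dv k (A + 1) B G S w := h.hD w h.hw
  have hk : (0 : ℤ) ≤ k := by positivity
  have hSL2 : ∑ u ∈ NH G S w, (Yv k (A + 1) B G S w * Dv k (A + 1) B G S u
          - Dv k (A + 1) B G S w * Yv k (A + 1) B G S u)
      = Yv k (A + 1) B G S w * (∑ u ∈ NH G S w, Dv k (A + 1) B G S u)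
        - Dv k (A + 1) B G S w * ∑ u ∈ NH G S w, Yv k (A + 1) B G S u := by
    rw [sum_sub_distrib, ← mul_sum, ← mul_sum]
  generalize (∑ y ∈ NH G S w, sq k (A + 1) B G S w (Qs G S w y)) = G3 at *
  generalize (∑ u ∈ NH G S w, (Yv k (A + 1) B G S w * Dv k (A + 1) B G S u
          - Dv k (A + 1) B G S w * Yv k (A + 1) B G S u)) = SL at *
  generalize (∑ u ∈ NH G S w, sq k (A + 1) B G S u (Qf G (NH G S w) f u)) = C3 at *
  generalize (∑ u ∈ NH G S w, Dv k (A + 1) B G S u) = sD at *
  generalize (∑ u ∈ NH G S w, Yv k (A + 1) B G S u) = sY at *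
  generalize K G (NH G S w) 3 = t at *
  generalize K G (NH G S w) 2 = mm at *
  generalize Dv k (A + 1) B G S w = D at *
  generalize Yv k (A + 1) B G S w = Y at *
  generalize rS k (A + 1) B G S = r at *
  generalize MS k (A + 1) B S = M at *
  generalize es k A B (j + 1) = lam at *
  generalize ((- Phi k (A + 1) B (j + 2) G S)
          + Phi k A B (j + 2) G (nb G S w) + Phi k A B (j + 1) G (nb G S w)) = P at *
  have e1 : D * G3 = D * (D - M) * Y + 2 * D * C3 + D * t - Y * (D - Y - r - mm) + SL := by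
    rw [hG, hSL2]
    linear_combination (-Y) * hE2
  have e2 : 0 ≤ k * lam * D * (C3 - t) := by
    apply mul_nonneg
    · positivity
    · linarith
  have e3 : 0 ≤ k * lam * SL := by positivity
  have e4 : k * D * lam * G3 = k * lam * (D * (D - M) * Y + 2 * D * C3 + D * t
      - Y * (D - Y - r - mm) + SL) := by
    rw [← e1]; ring
  rw [e4]
  nlinarith [hC, e2, e3]

/-- triangles of `R` through an edge -/
private theorem card_common_le (R : Finset V) {y y' : V} (hy : y ∈ R) (hy' : y' ∈ R)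
    (hadj : G.Adj y y') :
    ((nb G R y ∩ nb G R y').card : ℤ) ≤ K G R 3 := by
  have h1 := K_erase G hy 2
  have h2 : y' ∈ nb G R y := by rw [mem_nb]; exact ⟨hy', hadj⟩
  have h3 := K_erase G h2 1
  have h4 := K_nonneg G (R.erase y) 3
  have h5 := K_nonneg G ((nb G R y).erase y') 2
  rw [K_one, nb_nb] at h3
  norm_num at h1 h3
  linarith

/-- `t_B ≤ ε - 1` -/
theorem ml_tB (h : ML V j G S k A B w) (hm : 1 ≤ K G (NH G S w) 2) {y y' : V}
    (hy : y ∈ NH G S w) (hy' : y' ∈ NH G S w) (hadj : G.Adj y y') :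
    (((Qs G S w y ∪ Qs G S w y').card : ℕ) : ℤ) - (k + 1 - Dv k (A + 1) B G S w)
      ≤ Dv k (A + 1) B G S w - Yv k (A + 1) B G S w - 1 := by
  rw [card_Q_union G S h.hw k (A + 1) B hy hy' hadj]
  obtain ⟨f, hf, hC⟩ := ml_C3 h hm
  have hSL := slack_nonneg h
  have hN := (ml_num h hm).c3
  have hL := ml_L h
  have hlam := (ml_main h).2.1
  have hQ := h.hQ
  have hD : 1 ≤ Dv k (A + 1) B G S w := h.hD w h.hw
  have hk : (1 : ℤ) ≤ k := by exact_mod_cast h.hk
  have hcn := card_common_le (NH G S w) hy hy' hadj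
  -- the two terms are bounded by `C3`
  have hC3 : cv k (A + 1) B G S y y' + K G (NH G S w) 3
      ≤ ∑ u ∈ NH G S w, sq k (A + 1) B G S u (Qf G (NH G S w) f u) := by
    rw [show (3 : ℕ) = 2 + 1 from rfl, K_last G (NH G S w) f hf 2]
    unfold Pool.Agent.Helper72.LSr.sq
    rw [sum_add_distrib]
    apply add_le_add_left
    have hne : y ≠ y' := fun hh => by
      subst hh
      exact G.loopless.irrefl _ hadj
    have hsymm : cv k (A + 1) B G S y y' = cv k (A + 1) B G S y' y := by
      unfold cv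
      rw [inter_comm]
    have hnn : ∀ u ∈ NH G S w,
        0 ≤ ∑ x ∈ Qf G (NH G S w) f u, cv k (A + 1) B G S u x :=
      fun u hu => sum_nonneg (sum_cv_nonneg h f hu)
    rcases lt_or_gt_of_ne (fun hh : f y = f y' => hne (hf hy hy' hh)) with hlt | hlt
    · rw [hsymm]
      refine le_trans ?_ (single_le_sum hnn hy')
      have hmem : y ∈ Qf G (NH G S w) f y' := by
        unfold Qf
        rw [mem_filter]
        exact ⟨hy, hadj.symm, hlt⟩
      exact single_le_sum (f := fun x => cv k (A + 1) B G S y' x) (sum_cv_nonneg h f hy') hmem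
    · refine le_trans ?_ (single_le_sum hnn hy)
      have hmem : y' ∈ Qf G (NH G S w) f y := by
        unfold Qf
        rw [mem_filter]
        exact ⟨hy', hadj, hlt⟩
      exact single_le_sum (f := fun x => cv k (A + 1) B G S y x) (sum_cv_nonneg h f hy) hmem
  obtain ⟨hPL, hkap⟩ := hL
  generalize (∑ u ∈ NH G S w, (Yv k (A + 1) B G S w * Dv k (A + 1) B G S u
          - Dv k (A + 1) B G S w * Yv k (A + 1) B G S u)) = SL at *
  generalize (∑ u ∈ NH G S w, sq k (A + 1) B G S u (Qf G (NH G S w) f u)) = C3 at *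
  generalize K G (NH G S w) 3 = t at *
  generalize K G (NH G S w) 2 = mm at *
  generalize Dv k (A + 1) B G S w = D at *
  generalize Yv k (A + 1) B G S w = Y at *
  generalize rS k (A + 1) B G S = r at *
  generalize es k A B (j + 1) = lam at *
  generalize (- Phi k (A + 1) B (j + 2) G S) = Q at *
  generalize Phi k A B (j + 2) G (nb G S w) = PL at *
  generalize Phi k A B (j + 1) G (nb G S w) = kap at *
  generalize max (-r) 0 = rm at *
  -- `C3 < D - Y`
  have hlt : C3 < D - Y := by
    by_contra hcon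
    push Not at hcon
    have e1 : 0 ≤ (k : ℤ) * (lam * SL) := by positivity
    have e2 : lam * ((k + 1) * (Y * (D - Y - r - mm) - rm * D)) ≤ lam * (k * D * (D - Y)) :=
      mul_le_mul_of_nonneg_left hN (by linarith)
    have e3 : k * D * lam * (D - Y) ≤ k * D * lam * C3 :=
      mul_le_mul_of_nonneg_left hcon (by positivity)
    have e4 : D * (1 + lam * rm) ≤ D * (Q + PL + kap) :=
      mul_le_mul_of_nonneg_left (by linarith) (by linarith)
    have e5 : (k + 1 : ℤ) * (D * (1 + lam * rm)) ≤ (k + 1) * (D * (Q + PL + kap)) :=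
      mul_le_mul_of_nonneg_left e4 (by linarith)
    have e6 : 0 < (k + 1 : ℤ) * D := by positivity
    nlinarith
  linarith

end Pool.Agent.Helper26.LSr
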